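import Mathlib
import Pool.Agent.Results.MP_49fec2_al.ResidualRank

/-!
# Relatively free groups of the varieties generated by the symmetric groups

`V_N`, the variety generated by the symmetric group of degree `N`, is generated by its relatively
free group of rank two. If `5 * 2 ^ (k + 1) ≤ N`, then for no `n > k` the group `F_n(V_N)` is
residually `k`-generator; even more, some nontrivial element of `F_n(V_N)` survives only in
quotients that map onto the elementary abelian group of order `2 ^ (k + 1)`. On the other hand, in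
every variety generated by a finite group `Q` all relatively free groups are residually
`d`-generator with `d = log_2 |Q|`.

The definitions, the wreath products and the case `k ≤ 1` are those of the starting file
`ResidualRank`.
-/

set_option autoImplicit false

namespace Pool.Agent.Results.MP_49fec2_al.SymmetricGroups

open Pool.Agent.Results.MP_49fec2_al.ResidualRank

/-- a nontrivial element in all members of a family of normal subgroups -/
theorem key_elt {R H : Type} [Group R] [Group H] [Finite R] (h : R →* H)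
    (hs : Function.Surjective h) (hH : PrimeGp H) (hnt : (⊤ : Subgroup H) ≠ ⊥)
    (F : Set (Subgroup R)) (hF : ∀ N ∈ F, N.Normal ∧ N.map h ≠ ⊥) :
    ∃ g : R, h g ≠ 1 ∧ ∀ N ∈ F, g ∈ N := by
  classical
  have key : ∀ s : Finset (Subgroup R), (∀ N ∈ s, N ∈ F) →
      ∃ T : Subgroup R, T.Normal ∧ T.map h ≠ ⊥ ∧ ∀ N ∈ s, T ≤ N := by
    intro s
    induction s using Finset.induction_on with
    | empty =>
      intro _
      refine ⟨⊤, inferInstance, ?_, fun N hN => absurd hN (Finset.notMem_empty N)⟩
      rw [Subgroup.map_top_of_surjective h hs]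
      exact hnt
    | insert N s hN ih =>
      intro hall
      obtain ⟨T, hT1, hT2, hT3⟩ := ih (fun N hN => hall N (Finset.mem_insert_of_mem hN))
      obtain ⟨hNn, hNmap⟩ := hF N (hall N (Finset.mem_insert_self N s))
      refine ⟨⁅T, N⁆, inferInstance, ?_, ?_⟩
      · rw [Subgroup.map_commutator]
        exact hH _ _ (hT1.map h hs) (hNn.map h hs) hT2 hNmap
      · intro M hM
        rcases Finset.mem_insert.mp hM with rfl | hM
        · exact Subgroup.commutator_le_right _ _
        · exact (Subgroup.commutator_le_left _ _).trans (hT3 M hM)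
  have hfin : Finite (Subgroup R) := inferInstance
  have := Fintype.ofFinite (Subgroup R)
  obtain ⟨T, hT1, hT2, hT3⟩ := key (Finset.univ.filter fun N => N ∈ F)
    (fun N hN => (Finset.mem_filter.mp hN).2)
  have h1 : ∃ g ∈ T, h g ≠ 1 := by
    by_contra hc
    push Not at hc
    apply hT2
    rw [Subgroup.map_eq_bot_iff]
    exact fun g hg => hc g hg
  obtain ⟨g, hg, hg1⟩ := h1
  exact ⟨g, hg1, fun N hN => hT3 N (Finset.mem_filter.mpr ⟨Finset.mem_univ _, hN⟩) hg⟩

/-- the wreath product acts faithfully on `5 * 2 ^ (k + 1)` points -/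
theorem embed_perm {N k : ℕ} (hN : 5 * 2 ^ (k + 1) ≤ N) :
    ∃ φ : HH k →* Equiv.Perm (Fin N), Function.Injective φ := by
  classical
  have hcard : Fintype.card (Fin 5 × EE (k + 1)) = 5 * 2 ^ (k + 1) := by
    rw [Fintype.card_prod, Fintype.card_fin]
    congr 1
    have h1 : Fintype.card (EE (k + 1)) = Fintype.card (Fin (k + 1) → ZMod 2) :=
      Fintype.card_congr Multiplicative.toAdd
    rw [h1, Fintype.card_fun, ZMod.card, Fintype.card_fin]
  obtain ⟨ι⟩ : Nonempty (Fin 5 × EE (k + 1) ↪ Fin N) := by
    rw [Function.Embedding.nonempty_iff_card_le, hcard, Fintype.card_fin]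
    exact hN
  have h1 : Function.Injective (RegularWreathProduct.toPerm A5 (EE (k + 1)) (Fin 5)) :=
    RegularWreathProduct.toPermInj A5 (EE (k + 1)) (Fin 5)
  have h2 : Function.Injective (Equiv.Perm.viaEmbeddingHom ι) :=
    Equiv.Perm.viaEmbeddingHom_injective ι
  refine ⟨(Equiv.Perm.viaEmbeddingHom ι).comp
    (RegularWreathProduct.toPerm A5 (EE (k + 1)) (Fin 5)), ?_⟩
  rw [MonoidHom.coe_comp]
  exact h2.comp h1

theorem gen_two {N k : ℕ} (hN : 2 ≤ N) (hk : 2 ≤ k) :
    Generates (laws (Equiv.Perm (Fin N))) (RelFree (laws (Equiv.Perm (Fin N))) k) := by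
  obtain ⟨m, rfl⟩ : ∃ m, N = m + 2 := ⟨N - 2, by omega⟩
  obtain ⟨f, hf⟩ := gen_perm m k hk
  exact generates_laws _ f hf

theorem not_resid {N k n : ℕ} (hk : 1 ≤ k) (hN : 5 * 2 ^ (k + 1) ≤ N) (hn : k < n) :
    ∃ g : RelFree (laws (Equiv.Perm (Fin N))) n, g ≠ 1 ∧
      ∀ (M : Subgroup (RelFree (laws (Equiv.Perm (Fin N))) n)) (_ : M.Normal), g ∉ M →
        ∃ φ : (RelFree (laws (Equiv.Perm (Fin N))) n ⧸ M) →* EE (k + 1),
          Function.Surjective φ := by
  classical
  obtain ⟨φ, hφ⟩ := embed_perm hN
  obtain ⟨f, hf⟩ := gen_HH k n hk hn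
  have hH : InVariety (laws (Equiv.Perm (Fin N))) (HH k) :=
    inVariety_of_injective φ hφ (inVariety_laws _)
  have hfin : Finite (RelFree (laws (Equiv.Perm (Fin N))) n) := finite_relFree _ n
  have hnt : (⊤ : Subgroup (HH k)) ≠ ⊥ := by
    intro h1
    exact not_kgen_HH k ⟨∅, by simp, by rw [Finset.coe_empty, Subgroup.closure_empty, h1]⟩
  obtain ⟨g, hg1, hg2⟩ := key_elt (desc _ hH f) (desc_surjective _ hH f hf) (prime_HH k) hnt
    {M | ∃ _ : M.Normal, ¬ ∃ φ : (RelFree (laws (Equiv.Perm (Fin N))) n ⧸ M) →* EE (k + 1),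
      Function.Surjective φ} (by
      rintro M ⟨hM, hno⟩
      refine ⟨hM, fun h0 => hno ?_⟩
      rw [Subgroup.map_eq_bot_iff] at h0
      refine ⟨(RegularWreathProduct.rightHom : HH k →* EE (k + 1)).comp
        (QuotientGroup.lift M (desc _ hH f) (fun x hx => h0 hx)), ?_⟩
      intro y
      obtain ⟨x, hx⟩ := desc_surjective _ hH f hf (RegularWreathProduct.inl y)
      refine ⟨QuotientGroup.mk x, ?_⟩
      have h1 : QuotientGroup.lift M (desc _ hH f) (fun x hx => h0 hx) (QuotientGroup.mk x) =
          RegularWreathProduct.inl y := hx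
      rw [MonoidHom.comp_apply, h1, RegularWreathProduct.fun_id])
  refine ⟨g, fun h0 => hg1 (by rw [h0, map_one]), fun M hM hgM => ?_⟩
  by_contra hno
  exact hgM (hg2 M ⟨hM, hno⟩)

/-- a finite group is generated by at most `log_2` of its order elements -/
theorem kgen_log (G : Type) [Group G] [Finite G] : KGen (Nat.log 2 (Nat.card G)) G := by
  classical
  have key : ∀ j : ℕ, ∃ S : Finset G, S.card ≤ j ∧
      (Subgroup.closure (S : Set G) = ⊤ ∨ 2 ^ j ≤ Nat.card (Subgroup.closure (S : Set G))) := by
    intro j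
    induction j with
    | zero => exact ⟨∅, by simp, Or.inr (by rw [pow_zero]; exact Nat.card_pos)⟩
    | succ j ih =>
      obtain ⟨S, hS, h1⟩ := ih
      by_cases htop : Subgroup.closure (S : Set G) = ⊤
      · exact ⟨S, by omega, Or.inl htop⟩
      have h2 := h1.resolve_left htop
      obtain ⟨x, hx⟩ : ∃ x, x ∉ Subgroup.closure (S : Set G) := by
        by_contra hc
        push Not at hc
        exact htop (eq_top_iff.2 fun x _ => hc x)
      refine ⟨insert x S, (Finset.card_insert_le _ _).trans (by omega), Or.inr ?_⟩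
      set A := Subgroup.closure (S : Set G) with hA
      set B := Subgroup.closure ((insert x S : Finset G) : Set G) with hB
      have hAB : A ≤ B := Subgroup.closure_mono (by
        rw [Finset.coe_insert]
        exact Set.subset_insert _ _)
      have hxB : x ∈ B := Subgroup.subset_closure (by
        rw [Finset.coe_insert]
        exact Set.mem_insert _ _)
      have h3 : A.relIndex B * Nat.card A = Nat.card B := by
        have h7 := Subgroup.relIndex_mul_relIndex ⊥ A B bot_le hAB
        rw [Subgroup.relIndex_bot_left, Subgroup.relIndex_bot_left] at h7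
        rw [mul_comm]
        exact h7
      have h4 : A.relIndex B ≠ 1 := by
        intro h5
        exact hx ((Subgroup.relIndex_eq_one.1 h5) hxB)
      have h5 : A.relIndex B ≠ 0 := by
        intro h6
        rw [h6, zero_mul] at h3
        have : 0 < Nat.card B := Nat.card_pos
        omega
      have h6 : 2 * 2 ^ j ≤ A.relIndex B * Nat.card A := Nat.mul_le_mul (by omega) h2
      rw [pow_succ']
      omega
  obtain ⟨S, hS, h1⟩ := key (Nat.log 2 (Nat.card G))
  refine ⟨S, hS, ?_⟩
  rcases h1 with h1 | h1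
  · exact h1
  · by_contra htop
    set A := Subgroup.closure (S : Set G) with hA
    have h3 : A.index * Nat.card A = Nat.card G := Subgroup.index_mul_card A
    have h4 : A.index ≠ 1 := by
      intro h5
      exact htop (Subgroup.index_eq_one.1 h5)
    have h5 : A.index ≠ 0 := by
      intro h6
      rw [h6, zero_mul] at h3
      have : 0 < Nat.card G := Nat.card_pos
      omega
    have h6 : 2 * 2 ^ (Nat.log 2 (Nat.card G)) ≤ A.index * Nat.card A :=
      Nat.mul_le_mul (by omega) h1
    have h7 : Nat.card G < 2 ^ (Nat.log 2 (Nat.card G) + 1) :=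
      Nat.lt_pow_succ_log_self (by norm_num) _
    rw [pow_succ'] at h7
    omega

theorem kgen_mono {k l : ℕ} (h : k ≤ l) {G : Type} [Group G] (hG : KGen k G) : KGen l G := by
  obtain ⟨S, hS, h1⟩ := hG
  exact ⟨S, hS.trans h, h1⟩

/-- an element of the relatively free group that is trivial under all homomorphisms to `Q` -/
theorem mem_verbal (Q : Type) [Group Q] {n : ℕ} (w : FreeGroup (Fin n))
    (hw1 : ∀ f : Fin n → Q, FreeGroup.lift f w = 1) : w ∈ verbal (laws Q) (FreeGroup (Fin n)) := by
  let F : ℕ → FreeGroup (Fin n) := fun i => if h : i < n then FreeGroup.of ⟨i, h⟩ else 1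
  have h1 : FreeGroup.lift F (FreeGroup.map (fun i : Fin n => (i : ℕ)) w) = w := by
    have : (FreeGroup.lift F).comp (FreeGroup.map (fun i : Fin n => (i : ℕ))) =
        MonoidHom.id (FreeGroup (Fin n)) := by
      refine FreeGroup.ext_hom _ _ (fun i => ?_)
      rw [MonoidHom.comp_apply, FreeGroup.map.of, FreeGroup.lift_apply_of]
      simp [F]
    exact DFunLike.congr_fun this w
  have h2 : FreeGroup.map (fun i : Fin n => (i : ℕ)) w ∈ laws Q := by
    intro g
    have : (FreeGroup.lift g).comp (FreeGroup.map (fun i : Fin n => (i : ℕ))) =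
        FreeGroup.lift (fun i : Fin n => g i) := by
      refine FreeGroup.ext_hom _ _ (fun i => ?_)
      rw [MonoidHom.comp_apply, FreeGroup.map.of, FreeGroup.lift_apply_of,
        FreeGroup.lift_apply_of]
    have h3 := DFunLike.congr_fun this w
    rw [MonoidHom.comp_apply] at h3
    rw [h3, hw1]
  exact Subgroup.subset_closure ⟨_, h2, F, h1⟩

theorem resid_log (Q : Type) [Group Q] [Finite Q] (n : ℕ) :
    ResidKGen (Nat.log 2 (Nat.card Q)) (RelFree (laws Q) n) := by
  intro g hg
  obtain ⟨w, rfl⟩ := QuotientGroup.mk'_surjective _ g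
  obtain ⟨f, hf⟩ : ∃ f : Fin n → Q, FreeGroup.lift f w ≠ 1 := by
    by_contra hc
    push Not at hc
    exact hg ((QuotientGroup.eq_one_iff _).mpr (mem_verbal Q w hc))
  set φ := desc (laws Q) (inVariety_laws Q) f with hφ
  refine ⟨φ.ker, inferInstance, ?_, ?_⟩
  · rw [MonoidHom.mem_ker]
    exact hf
  · have h1 : KGen (Nat.log 2 (Nat.card φ.range)) φ.range := kgen_log _
    have h2 : Nat.log 2 (Nat.card φ.range) ≤ Nat.log 2 (Nat.card Q) :=
      Nat.log_mono_right (Nat.card_le_card_of_injective _ φ.range.subtype_injective)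
    exact kgen_of_surjective (QuotientGroup.quotientKerEquivRange φ).symm.toMonoidHom
      (QuotientGroup.quotientKerEquivRange φ).symm.surjective (kgen_mono h2 h1)

/-- **Main theorem.** Let `V_N` be the variety generated by the symmetric group of degree `N`.
(1) For `N, r ≥ 2` the variety `V_N` is generated by `F_r(V_N)`.
(2) If `k ≥ 1`, `5 * 2 ^ (k + 1) ≤ N` and `n > k`, then some `g ≠ 1` in `F_n(V_N)` lies in every
normal subgroup `M` such that `F_n(V_N) / M` does not map onto the elementary abelian group of order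
`2 ^ (k + 1)`; in particular `F_n(V_N)` is not residually `k`-generator.
(3) For every finite group `Q` and all `n`, the group `F_n(var Q)` is residually `d`-generator, where
`d` is the integer part of `log_2 |Q|`.
(4) For every `m` there is one variety `V`, generated by a finite group, such that `F_r(V)` generates
`V` for all `r ≥ 2` and `F_n(V)` is not residually `k`-generator for all `1 ≤ k ≤ m` and `n > k`.
(5) For `k ≤ 1` and every variety `V` generated by `F_k(V)`, all `F_n(V)` are residually
`k`-generator. -/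
theorem result :
    (∀ N r : ℕ, 2 ≤ N → 2 ≤ r →
      Generates (laws (Equiv.Perm (Fin N))) (RelFree (laws (Equiv.Perm (Fin N))) r)) ∧
    (∀ N k n : ℕ, 1 ≤ k → 5 * 2 ^ (k + 1) ≤ N → k < n →
      (∃ g : RelFree (laws (Equiv.Perm (Fin N))) n, g ≠ 1 ∧
        ∀ (M : Subgroup (RelFree (laws (Equiv.Perm (Fin N))) n)) (_ : M.Normal), g ∉ M →
          ∃ φ : (RelFree (laws (Equiv.Perm (Fin N))) n ⧸ M) →*
            Multiplicative (Fin (k + 1) → ZMod 2), Function.Surjective φ) ∧
      ¬ ResidKGen k (RelFree (laws (Equiv.Perm (Fin N))) n)) ∧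
    (∀ (Q : Type) [Group Q] [Finite Q] (n : ℕ),
      ResidKGen (Nat.log 2 (Nat.card Q)) (RelFree (laws Q) n)) ∧
    (∀ m : ℕ, ∃ (Q : Type) (_ : Group Q), Finite Q ∧
      (∀ r : ℕ, 2 ≤ r → Generates (laws Q) (RelFree (laws Q) r)) ∧
      ∀ k n : ℕ, 1 ≤ k → k ≤ m → k < n → ¬ ResidKGen k (RelFree (laws Q) n)) ∧
    (∀ k : ℕ, k ≤ 1 → ∀ (W : Set (FreeGroup ℕ)) (n : ℕ), Generates W (RelFree W k) →
      ResidKGen k (RelFree W n)) := by
  have h2 : ∀ N k n : ℕ, 1 ≤ k → 5 * 2 ^ (k + 1) ≤ N → k < n →
      ¬ ResidKGen k (RelFree (laws (Equiv.Perm (Fin N))) n) := by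
    intro N k n hk hN hn hR
    obtain ⟨g, hg, hM⟩ := not_resid hk hN hn
    obtain ⟨M, hMn, hgM, hkg⟩ := hR g hg
    obtain ⟨φ, hφ⟩ := hM M hMn hgM
    exact not_kgen_EE k (kgen_of_surjective φ hφ hkg)
  refine ⟨fun N r hN hr => gen_two hN hr, fun N k n hk hN hn => ⟨not_resid hk hN hn,
    h2 N k n hk hN hn⟩, fun Q _ _ n => resid_log Q n, fun m => ?_, ResidualRank.result.2⟩
  have h5 : 2 ≤ 5 * 2 ^ (m + 1) := by
    have : 0 < 2 ^ (m + 1) := by positivity
    omega
  refine ⟨Equiv.Perm (Fin (5 * 2 ^ (m + 1))), inferInstance, inferInstance,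
    fun r hr => gen_two h5 hr, fun k n hk hkm hn => h2 _ k n hk ?_ hn⟩
  exact Nat.mul_le_mul_left 5 (Nat.pow_le_pow_right (by norm_num) (by omega))

end Pool.Agent.Results.MP_49fec2_al.SymmetricGroups
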